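import Pool.Agent.P.MP_13a6c0_al.ZFree

namespace Pool.Agent.Results.MP_13a6c0_al.Counterexample

open Pool.Agent.P.MP_13a6c0_al

theorem result : ∃ (A : Type) (_ : Finite A) (_ : TopologicalSpace A) (_ : DiscreteTopology A)
    (F : Set (List A)) (hF : ∀ a, [a, a] ∈ F),
    Filter.Tendsto (fun n : ℕ => Real.log (complexity (SF F) n) / n) Filter.atTop (nhds 0) ∧
    ∃ f : FreeGroup (Fin 2) →* (SF F ≃ₜ SF F), Function.Injective f ∧
      ∀ g, f g ∈ GF F hF ∧ InFull F hF (f g) :=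
  ⟨Fin 3, inferInstance, inferInstance, inferInstance, Forb, sq_mem_Forb, entropy_zero, emb,
    emb_injective, fun g =>
      ⟨emb_mem g, fun _ => ⟨Set.univ, isOpen_univ, trivial, _, emb_mem g, fun _ _ => rfl⟩⟩⟩

end Pool.Agent.Results.MP_13a6c0_al.Counterexample
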