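import Pool.Agent.K.MP_13a6c0_al.C3

namespace Pool.Agent.Results.MP_13a6c0_al.SlowOrMinimal

open Pool.Agent.P.MP_13a6c0_al

theorem result {A : Type} [Finite A] [TopologicalSpace A] [DiscreteTopology A]
    (F : Set (List A)) (hF : ∀ a, [a, a] ∈ F) (Y : ℕ → Set (ℤ → A))
    (hY : ∀ k, IsSubshift (Y k) ∧ Y k ⊆ SF F ∧ (IsMinimalShift (Y k) ∨ Slow (Y k)))
    (hcover : ∀ Z, IsSubshift Z → Z ⊆ SF F → Z.Nonempty → ∃ k, (Z ∩ Y k).Nonempty)
    (f : FreeGroup (Fin 2) →* (SF F ≃ₜ SF F)) (hf : ∀ g, InFull F hF (f g)) :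
    ¬ Function.Injective f := fun hinj =>
  not_bad (isSubshift_SF F) Y hY hcover (bad_of_hom f (fun g => loc_full hF (hf g)) hinj)

end Pool.Agent.Results.MP_13a6c0_al.SlowOrMinimal
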